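import Pool.Agent.Q229.NR.Defs

/-!
# The lower bound
-/

set_option autoImplicit false

namespace Q229.NR

/-- the variables of the lower-bound instance: three groups of single variables and three
groups of pair variables -/
abbrev Var (q : ℕ) : Type := (Fin 3 × Fin q) ⊕ (Fin 3 × (Fin q × Fin q))

/-- the clause attached to a triple -/
def clause {q : ℕ} (t : Fin q × Fin q × Fin q) : Fin 6 → Var q :=
  ![Sum.inl (0, t.1), Sum.inl (1, t.2.1), Sum.inl (2, t.2.2),
    Sum.inr (0, (t.1, t.2.1)), Sum.inr (1, (t.2.1, t.2.2)), Sum.inr (2, (t.1, t.2.2))]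

theorem clause_inj {q : ℕ} : Function.Injective (clause (q := q)) := by
  intro a b h
  have h0 := congrFun h 0
  have h1 := congrFun h 1
  have h2 := congrFun h 2
  simp only [clause, Matrix.cons_val_zero, Matrix.cons_val_one, Matrix.cons_val,
    Sum.inl.injEq, Prod.mk.injEq, true_and] at h0 h1 h2
  exact Prod.ext h0 (Prod.ext h1 h2)

/-- the witness of a triple -/
def wit {q : ℕ} (t : Fin q × Fin q × Fin q) : Var q → Bool
  | Sum.inl (0, i) => !decide (i = t.1)
  | Sum.inl (1, i) => !decide (i = t.2.1)
  | Sum.inl (2, i) => !decide (i = t.2.2)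
  | Sum.inr (0, p) => xor (!decide (p.1 = t.1)) (!decide (p.2 = t.2.1))
  | Sum.inr (1, p) => xor (!decide (p.1 = t.2.1)) (!decide (p.2 = t.2.2))
  | Sum.inr (2, p) => xor (!decide (p.1 = t.1)) (!decide (p.2 = t.2.2))

theorem lower (q n : ℕ) (h : 3 * q + 3 * (q * q) ≤ n) : q ^ 3 ≤ NRD P6 n := by
  classical
  have hred : NonRed P6 ((Finset.univ : Finset (Fin q × Fin q × Fin q)).image clause) := by
    intro c hc
    obtain ⟨t, -, rfl⟩ := Finset.mem_image.1 hc
    refine ⟨wit t, ?_, ?_⟩
    · intro c' hc' hne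
      obtain ⟨u, -, rfl⟩ := Finset.mem_image.1 hc'
      have hut : u ≠ t := fun h => hne (by rw [h])
      refine ⟨rfl, rfl, rfl, ?_⟩
      rintro ⟨h0, h1, h2⟩
      apply hut
      simp only [clause, Matrix.cons_val_zero, Matrix.cons_val_one, Matrix.cons_val,
        wit, Bool.not_eq_false', decide_eq_true_eq] at h0 h1 h2
      exact Prod.ext h0 (Prod.ext h1 h2)
    · rintro ⟨-, -, -, h⟩
      apply h
      simp [clause, wit]
  have hcard : Fintype.card (Var q) ≤ n := by
    simp only [Fintype.card_sum, Fintype.card_prod, Fintype.card_fin]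
    exact h
  have := card_le_nrd hcard hred
  rw [Finset.card_image_of_injective _ clause_inj, Finset.card_univ] at this
  simp only [Fintype.card_prod, Fintype.card_fin] at this
  calc q ^ 3 = q * (q * q) := by ring
    _ ≤ _ := this

end Q229.NR
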