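import Pool.Agent.Q229.NR.Fin
import Pool.Agent.Q229.NR.Lower

/-!
# The order of growth of the non-redundancy of the predicate
-/

set_option autoImplicit false

namespace Q229.NR

open Filter Topology

theorem rpow_three_half {x : ℝ} (hx : 0 < x) : x ^ (((3 / 2 : ℚ)) : ℝ) = x * √x := by
  have : (((3 / 2 : ℚ)) : ℝ) = 1 + 1 / 2 := by norm_num
  rw [this, Real.rpow_add hx, Real.rpow_one, Real.sqrt_eq_rpow]

theorem nrd_upper (n : ℕ) (hn : 1 ≤ n) : (NRD P6 n : ℝ) ≤ 15 * ((n : ℝ) * √(n : ℝ)) := by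
  set s := Nat.sqrt n + 1 with hs
  have h1 : NRD P6 n ≤ 4 * n * s + s + 4 * n + 1 := by
    refine nrd_le ?_
    intro I hI
    have := upper I hI s (by omega) (by
      rw [Fintype.card_fin]
      exact (Nat.lt_succ_sqrt n).le)
    rwa [Fintype.card_fin] at this
  have hn' : (1 : ℝ) ≤ n := by exact_mod_cast hn
  have hsq : (1 : ℝ) ≤ √(n : ℝ) := by
    rw [Real.one_le_sqrt]; exact hn'
  have hss : √(n : ℝ) * √(n : ℝ) = n := Real.mul_self_sqrt (by positivity)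
  have h2 : (s : ℝ) ≤ 2 * √(n : ℝ) := by
    have : ((Nat.sqrt n : ℕ) : ℝ) ≤ √(n : ℝ) := Real.nat_sqrt_le_real_sqrt
    rw [hs]
    push_cast
    linarith
  have h3 : (NRD P6 n : ℝ) ≤ 4 * n * s + s + 4 * n + 1 := by exact_mod_cast h1
  have h4 : (4 : ℝ) * n * s ≤ 4 * n * (2 * √(n : ℝ)) := by
    apply mul_le_mul_of_nonneg_left h2; positivity
  have h5 : (n : ℝ) ≤ n * √(n : ℝ) := by nlinarith
  have h6 : √(n : ℝ) ≤ n * √(n : ℝ) := by nlinarith
  nlinarith

theorem nrd_lower (n : ℕ) (hn : 6 ≤ n) : ((n : ℝ) * √(n : ℝ)) ≤ 120 * (NRD P6 n : ℝ) := by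
  set q := Nat.sqrt (n / 6) with hq
  have h1 : q * q ≤ n / 6 := Nat.sqrt_le (n / 6)
  have h1' : 6 * (q * q) ≤ n := by
    have := Nat.mul_div_le n 6
    omega
  have hq1 : 1 ≤ q := by
    rw [hq, Nat.le_sqrt]
    omega
  have h2 : n / 6 < (q + 1) * (q + 1) := Nat.lt_succ_sqrt (n / 6)
  have h2' : n < 6 * ((q + 1) * (q + 1)) := by omega
  have hqq : q ≤ q * q := Nat.le_mul_self q
  have h3 : q ^ 3 ≤ NRD P6 n := lower q n (by omega)
  have h4 : n ≤ 24 * (q * q) := by nlinarith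
  have h4' : (n : ℝ) ≤ 24 * ((q : ℝ) * q) := by exact_mod_cast h4
  have h5 : √(n : ℝ) ≤ 5 * q := by
    rw [Real.sqrt_le_left (by positivity)]
    nlinarith [mul_self_nonneg (q : ℝ)]
  have h6 : (n : ℝ) * √(n : ℝ) ≤ 24 * ((q : ℝ) * q) * (5 * q) := by
    apply mul_le_mul h4' h5 (Real.sqrt_nonneg _) (by positivity)
  have h7 : ((q : ℝ)) ^ 3 ≤ (NRD P6 n : ℝ) := by exact_mod_cast h3
  nlinarith

/-- `NRD(P, n)` has order of growth exactly `n ^ β` -/
def ThetaPow {r : ℕ} (P : Set (Fin r → Bool)) (β : ℝ) : Prop :=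
  ∃ c C : ℝ, 0 < c ∧ 0 < C ∧ ∀ᶠ n : ℕ in atTop,
    c * (n : ℝ) ^ β ≤ (NRD P n : ℝ) ∧ (NRD P n : ℝ) ≤ C * (n : ℝ) ^ β

theorem theta_P6 : ThetaPow P6 (((3 / 2 : ℚ)) : ℝ) := by
  refine ⟨1 / 120, 15, by norm_num, by norm_num, ?_⟩
  filter_upwards [eventually_ge_atTop 6] with n hn
  have hpos : (0 : ℝ) < n := by
    have : 0 < n := by omega
    exact_mod_cast this
  rw [rpow_three_half hpos]
  have h1 := nrd_lower n hn
  have h2 := nrd_upper n (by omega)
  constructor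
  · linarith
  · exact h2

theorem superlinear : Tendsto (fun n : ℕ => (NRD P6 n : ℝ) / n) atTop atTop := by
  have h1 : Tendsto (fun n : ℕ => (1 / 120 : ℝ) * √(n : ℝ)) atTop atTop :=
    Tendsto.const_mul_atTop (by norm_num)
      (Real.tendsto_sqrt_atTop.comp tendsto_natCast_atTop_atTop)
  refine tendsto_atTop_mono' atTop ?_ h1
  filter_upwards [eventually_ge_atTop 6] with n hn
  have hpos : (0 : ℝ) < n := by
    have : 0 < n := by omega
    exact_mod_cast this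
  rw [le_div_iff₀ hpos]
  have := nrd_lower n hn
  linarith

theorem subquadratic : Tendsto (fun n : ℕ => (NRD P6 n : ℝ) / (n : ℝ) ^ 2) atTop (𝓝 0) := by
  have h1 : Tendsto (fun n : ℕ => (15 : ℝ) / √(n : ℝ)) atTop (𝓝 0) :=
    Tendsto.const_div_atTop (Real.tendsto_sqrt_atTop.comp tendsto_natCast_atTop_atTop) _
  refine squeeze_zero' ?_ ?_ h1
  · filter_upwards with n
    positivity
  · filter_upwards [eventually_ge_atTop 6] with n hn
    have hpos : (0 : ℝ) < n := by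
      have : 0 < n := by omega
      exact_mod_cast this
    have hs : 0 < √(n : ℝ) := Real.sqrt_pos.2 hpos
    have hss : √(n : ℝ) * √(n : ℝ) = n := Real.mul_self_sqrt hpos.le
    rw [div_le_div_iff₀ (by positivity) hs]
    have h2 := nrd_upper n (by omega)
    calc (NRD P6 n : ℝ) * √(n : ℝ) ≤ 15 * ((n : ℝ) * √(n : ℝ)) * √(n : ℝ) := by
          apply mul_le_mul_of_nonneg_right h2 hs.le
      _ = 15 * (n : ℝ) ^ 2 := by
          rw [mul_assoc, mul_assoc, hss]; ring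

end Q229.NR
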