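import Pool.Agent.Q229.NR.Upper

/-!
# Counting restricted functionals and triangles
-/

set_option autoImplicit false

namespace Q229.NR

open Module Submodule

/-- identifying `x` with `z + x` loses at least half of the paired elements -/
theorem image_loss {A B : Type} [AddCommGroup A] [DecidableEq A] [DecidableEq B]
    (R : Finset A) (g : A → B) (z : A)
    (hz : z ≠ 0) (hzz : ∀ x : A, z + (z + x) = x) (hg : ∀ x, g (z + x) = g x) (s : ℕ)
    [DecidablePred (fun y => z + y ∈ R)]
    (hs : 2 * s ≤ (R.filter (fun y => z + y ∈ R)).card) : (R.image g).card + s ≤ R.card := by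
  set A' := R.filter (fun y => z + y ∈ R) with hA'
  have h1 : 2 * (A'.image g).card ≤ A'.card := by
    have h2 := Finset.card_eq_sum_card_image g A'
    rw [h2, mul_comm]
    refine Finset.card_nsmul_le_sum _ _ 2 ?_
    intro b hb
    obtain ⟨x, hx, rfl⟩ := Finset.mem_image.1 hb
    have hx' := Finset.mem_filter.1 hx
    refine Finset.one_lt_card.2 ⟨x, Finset.mem_filter.2 ⟨hx, rfl⟩, z + x,
      Finset.mem_filter.2 ⟨Finset.mem_filter.2 ⟨hx'.2, ?_⟩, hg x⟩, ?_⟩
    · rw [hzz]; exact hx'.1
    · intro h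
      apply hz
      have : z + x = 0 + x := by rw [← h, zero_add]
      exact add_right_cancel this
  have h3 : R.image g ⊆ A'.image g ∪ (R \ A').image g := by
    intro b hb
    obtain ⟨x, hx, rfl⟩ := Finset.mem_image.1 hb
    by_cases h : x ∈ A'
    · exact Finset.mem_union_left _ (Finset.mem_image_of_mem _ h)
    · exact Finset.mem_union_right _ (Finset.mem_image_of_mem _ (Finset.mem_sdiff.2 ⟨hx, h⟩))
  have h4 := (Finset.card_le_card h3).trans (Finset.card_union_le _ _)
  have h5 : ((R \ A').image g).card ≤ (R \ A').card := Finset.card_image_le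
  have h6 : (R \ A').card + A'.card = R.card :=
    Finset.card_sdiff_add_card_eq_card (Finset.filter_subset _ _)
  omega


open Classical

variable {V J : Type} [Fintype V] [Fintype J]

/-- the functional of the variable `v` restricted to `W` -/
noncomputable def res (W : Submodule (ZMod 2) (V → ZMod 2)) (v : V) : (V → ZMod 2) → ZMod 2 :=
  fun ψ => if ψ ∈ W then ψ v else 0

/-- the restricted functionals -/
noncomputable def R (W : Submodule (ZMod 2) (V → ZMod 2)) : Finset ((V → ZMod 2) → ZMod 2) :=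
  Finset.univ.image (res W)

/-- the triangles -/
noncomputable def Tri (W : Submodule (ZMod 2) (V → ZMod 2)) :
    Finset (((V → ZMod 2) → ZMod 2) × ((V → ZMod 2) → ZMod 2)) :=
  ((R W) ×ˢ (R W)).filter (fun p => p.1 + p.2 ∈ R W)

theorem res_mem (W : Submodule (ZMod 2) (V → ZMod 2)) (v : V) : res W v ∈ R W :=
  Finset.mem_image.2 ⟨v, Finset.mem_univ _, rfl⟩

theorem card_R_le (W : Submodule (ZMod 2) (V → ZMod 2)) : (R W).card ≤ Fintype.card V :=
  Finset.card_image_le.trans (by simp)

theorem final_stage (cl : J → Fin 6 → V) (W : Submodule (ZMod 2) (V → ZMod 2))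
    (hW : ∀ ψ ∈ W, Lin cl ψ) : D cl W ≤ 2 * Fintype.card V + 1 + (Tri W).card := by
  have hsum : ∀ a b c : V, (∀ ψ ∈ W, ψ a + ψ b = ψ c) → (res W a, res W b) ∈ Tri W := by
    intro a b c h
    refine Finset.mem_filter.2 ⟨Finset.mem_product.2 ⟨res_mem W a, res_mem W b⟩, ?_⟩
    have : res W a + res W b = res W c := by
      funext ψ
      simp only [Pi.add_apply, res]
      by_cases hψ : ψ ∈ W
      · simp only [hψ, if_true]
        exact h ψ hψ
      · simp only [hψ, if_false, add_zero]
    simp only [this]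
    exact res_mem W c
  have c1 : ∀ j, ∀ ψ ∈ W, ψ (cl j 3) + ψ (cl j 4) = ψ (cl j 5) := by
    intro j ψ hψ
    obtain ⟨e1, e2, e3⟩ := hW ψ hψ j
    rw [e1, e2, e3]
    have : ∀ a b c : ZMod 2, a + b + (b + c) = a + c := by decide
    exact this _ _ _
  have c2 : ∀ j, ∀ ψ ∈ W, ψ (cl j 1) + ψ (cl j 4) = ψ (cl j 2) := by
    intro j ψ hψ
    obtain ⟨e1, e2, e3⟩ := hW ψ hψ j
    rw [e2]
    have : ∀ b c : ZMod 2, b + (b + c) = c := by decide
    exact this _ _
  have c3 : ∀ j, ∀ ψ ∈ W, ψ (cl j 0) + ψ (cl j 5) = ψ (cl j 2) := by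
    intro j ψ hψ
    obtain ⟨e1, e2, e3⟩ := hW ψ hψ j
    rw [e3]
    have : ∀ b c : ZMod 2, b + (b + c) = c := by decide
    exact this _ _
  have c4 : ∀ j, ∀ ψ ∈ W, ψ (cl j 0) + ψ (cl j 3) = ψ (cl j 1) := by
    intro j ψ hψ
    obtain ⟨e1, e2, e3⟩ := hW ψ hψ j
    rw [e1]
    have : ∀ b c : ZMod 2, b + (b + c) = c := by decide
    exact this _ _
  have hr : ∀ ψ ∈ W, ∀ v, res W v ψ = ψ v := by
    intro ψ hψ v
    simp only [res, hψ, if_true]
  have := cube (K := {x // x ∈ Tri W}) cl W hW (fun k => k.1.1) (fun k => k.1.2)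
    (fun j => ⟨_, hsum _ _ _ (c1 j)⟩) (fun j => ⟨_, hsum _ _ _ (c2 j)⟩)
    (fun j => ⟨_, hsum _ _ _ (c3 j)⟩) (fun j => ⟨_, hsum _ _ _ (c4 j)⟩)
    (fun ψ hψ j => ⟨hr ψ hψ _, hr ψ hψ _⟩) (fun ψ hψ j => ⟨hr ψ hψ _, hr ψ hψ _⟩)
    (fun ψ hψ j => ⟨hr ψ hψ _, hr ψ hψ _⟩) (fun ψ hψ j => ⟨hr ψ hψ _, hr ψ hψ _⟩)
  rwa [Fintype.card_coe] at this

/-- the number of pairs with sum in the set is the sum of the local counts -/
theorem card_tri (W : Submodule (ZMod 2) (V → ZMod 2)) :
    (Tri W).card = ∑ x ∈ R W, ((R W).filter (fun y => x + y ∈ R W)).card := by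
  unfold Tri
  rw [Finset.card_filter, Finset.sum_product]
  refine Finset.sum_congr rfl ?_
  intro x _
  rw [Finset.card_filter]

theorem card_R_cut (W : Submodule (ZMod 2) (V → ZMod 2)) (v : V) (hz : res W v ≠ 0) (s : ℕ)
    (hs : 2 * s ≤ ((R W).filter (fun y => res W v + y ∈ R W)).card) :
    (R (cut W v)).card + s ≤ (R W).card := by
  let g : ((V → ZMod 2) → ZMod 2) → ((V → ZMod 2) → ZMod 2) :=
    fun x ψ => if ψ ∈ cut W v then x ψ else 0
  have hR : R (cut W v) = (R W).image g := by
    unfold R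
    rw [Finset.image_image]
    refine Finset.image_congr ?_
    intro u _
    funext ψ
    simp only [res, g, Function.comp]
    by_cases h : ψ ∈ cut W v
    · simp only [h, if_true, (mem_cut.1 h).1]
    · simp only [h, if_false]
  rw [hR]
  refine image_loss (R W) g (res W v) hz ?_ ?_ s hs
  · intro x
    funext ψ
    have : ∀ a b : ZMod 2, a + (a + b) = b := by decide
    exact this _ _
  · intro x
    funext ψ
    simp only [g, Pi.add_apply]
    by_cases h : ψ ∈ cut W v
    · simp only [h, if_true, res, (mem_cut.1 h).1, (mem_cut.1 h).2, zero_add]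
    · simp only [h, if_false]

theorem main_bound (cl : J → Fin 6 → V) (s : ℕ) (hs : 1 ≤ s) : ∀ (ρ : ℕ)
    (W : Submodule (ZMod 2) (V → ZMod 2)), (∀ ψ ∈ W, Lin cl ψ) → (R W).card = ρ →
    s * D cl W ≤ ρ * (2 * Fintype.card V + 1) +
      s * (2 * Fintype.card V + 1 + ρ * (2 * s + 1)) := by
  intro ρ
  induction ρ using Nat.strong_induction_on with
  | _ ρ ih =>
    intro W hW hρ
    by_cases h : ∃ v, res W v ≠ 0 ∧
        2 * s ≤ ((R W).filter (fun y => res W v + y ∈ R W)).card
    · obtain ⟨v, hv0, hv⟩ := h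
      have h1 := card_R_cut W v hv0 s hv
      obtain ⟨φ, hφ⟩ : ∃ φ, res W v φ ≠ 0 := by
        by_contra hcon
        push Not at hcon
        exact hv0 (funext hcon)
      have hφW : φ ∈ W := by
        by_contra hcon
        apply hφ
        simp only [res, hcon, if_false]
      have hφv : φ v = 1 := by
        have : ∀ x : ZMod 2, x ≠ 0 → x = 1 := by decide
        refine this _ ?_
        simpa only [res, hφW, if_true] using hφ
      have h2 := contract cl W hW v φ hφW hφv
      have h3 := ih (R (cut W v)).card (by omega) (cut W v)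
        (fun ψ hψ => hW ψ (mem_cut.1 hψ).1) rfl
      set ρ' := (R (cut W v)).card
      have h4 : ρ' + s ≤ ρ := by omega
      have h5 : s * D cl W ≤ s * D cl (cut W v) + s * (2 * Fintype.card V + 1) := by
        rw [← mul_add]
        exact Nat.mul_le_mul_left s h2
      have h6 : (ρ' + s) * (2 * Fintype.card V + 1) ≤ ρ * (2 * Fintype.card V + 1) :=
        Nat.mul_le_mul_right _ h4
      have h7 : s * (2 * Fintype.card V + 1 + ρ' * (2 * s + 1)) ≤
          s * (2 * Fintype.card V + 1 + ρ * (2 * s + 1)) := by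
        have : ρ' ≤ ρ := by omega
        gcongr
      have h8 : (ρ' + s) * (2 * Fintype.card V + 1) =
          ρ' * (2 * Fintype.card V + 1) + s * (2 * Fintype.card V + 1) := by ring
      omega
    · push Not at h
      have h1 := final_stage cl W hW
      have h2 : (Tri W).card ≤ ρ * (2 * s + 1) := by
        rw [card_tri]
        have hcases : ∀ x ∈ R W, ((R W).filter (fun y => x + y ∈ R W)).card ≤
            2 * s + (if x = 0 then ρ else 0) := by
          intro x hx
          obtain ⟨v, -, rfl⟩ := Finset.mem_image.1 hx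
          by_cases h0 : res W v = 0
          · rw [if_pos h0]
            have : ((R W).filter (fun y => res W v + y ∈ R W)).card ≤ (R W).card :=
              Finset.card_filter_le _ _
            omega
          · rw [if_neg h0]
            have := h v h0
            omega
        refine (Finset.sum_le_sum hcases).trans ?_
        rw [Finset.sum_add_distrib, Finset.sum_const, smul_eq_mul, hρ, Finset.sum_ite_eq']
        have : (if (0 : (V → ZMod 2) → ZMod 2) ∈ R W then ρ else 0) ≤ ρ := by
          split_ifs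
          · exact le_rfl
          · exact Nat.zero_le _
        nlinarith
      have h3 : s * D cl W ≤ s * (2 * Fintype.card V + 1 + ρ * (2 * s + 1)) :=
        Nat.mul_le_mul_left s (h1.trans (Nat.add_le_add_left h2 _))
      omega

end Q229.NR
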