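import Mathlib

/-!
# Non-redundancy of Boolean predicates: definitions
-/

set_option autoImplicit false

namespace Q229.NR

/-- the assignment `σ` satisfies the clause `c` of `CSP(P)` -/
def Sat {r : ℕ} {V : Type} (P : Set (Fin r → Bool)) (σ : V → Bool) (c : Fin r → V) : Prop :=
  (fun i => σ (c i)) ∈ P

/-- the finite instance `I` of `CSP(P)` is non-redundant: for every clause some assignment
satisfies all the other clauses and violates this one -/
def NonRed {r : ℕ} {V : Type} (P : Set (Fin r → Bool)) (I : Finset (Fin r → V)) : Prop :=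
  ∀ c ∈ I, ∃ σ : V → Bool, (∀ c' ∈ I, c' ≠ c → Sat P σ c') ∧ ¬ Sat P σ c

/-- the largest size of a non-redundant instance of `CSP(P)` on `n` variables -/
noncomputable def NRD {r : ℕ} (P : Set (Fin r → Bool)) (n : ℕ) : ℕ :=
  sSup {m | ∃ I : Finset (Fin r → Fin n), NonRed P I ∧ I.card = m}

/-- the predicate of arity six: the non-zero vectors
`(u, v, w, u + v, v + w, u + w)` over the field with two elements -/
def P6 : Set (Fin 6 → Bool) :=
  {t | t 3 = xor (t 0) (t 1) ∧ t 4 = xor (t 1) (t 2) ∧ t 5 = xor (t 0) (t 2) ∧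
    ¬ (t 0 = false ∧ t 1 = false ∧ t 2 = false)}

theorem nrd_bdd {r : ℕ} (P : Set (Fin r → Bool)) (n : ℕ) :
    BddAbove {m | ∃ I : Finset (Fin r → Fin n), NonRed P I ∧ I.card = m} := by
  refine ⟨Fintype.card (Fin r → Fin n), ?_⟩
  rintro m ⟨I, -, rfl⟩
  exact Finset.card_le_univ I

theorem nrd_nonempty {r : ℕ} (P : Set (Fin r → Bool)) (n : ℕ) :
    {m | ∃ I : Finset (Fin r → Fin n), NonRed P I ∧ I.card = m}.Nonempty := by
  refine ⟨0, ∅, ?_, rfl⟩
  intro c hc
  simp at hc

theorem le_nrd {r : ℕ} {P : Set (Fin r → Bool)} {n : ℕ} {I : Finset (Fin r → Fin n)}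
    (h : NonRed P I) : I.card ≤ NRD P n :=
  le_csSup (nrd_bdd P n) ⟨I, h, rfl⟩

theorem nrd_le {r : ℕ} {P : Set (Fin r → Bool)} {n B : ℕ}
    (h : ∀ I : Finset (Fin r → Fin n), NonRed P I → I.card ≤ B) : NRD P n ≤ B := by
  refine csSup_le (nrd_nonempty P n) ?_
  rintro m ⟨I, hI, rfl⟩
  exact h I hI

/-- the supremum is a maximum -/
theorem nrd_attained {r : ℕ} (P : Set (Fin r → Bool)) (n : ℕ) :
    ∃ I : Finset (Fin r → Fin n), NonRed P I ∧ I.card = NRD P n :=
  Nat.sSup_mem (nrd_nonempty P n) (nrd_bdd P n)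

/-- an instance over any variable type with at most `n` elements gives one over `Fin n` -/
theorem card_le_nrd {r : ℕ} {P : Set (Fin r → Bool)} {V : Type} [Fintype V] [DecidableEq V]
    {n : ℕ} (hn : Fintype.card V ≤ n) {I : Finset (Fin r → V)} (h : NonRed P I) :
    I.card ≤ NRD P n := by
  classical
  obtain ⟨e⟩ : Nonempty (V ↪ Fin n) := by
    apply Function.Embedding.nonempty_of_card_le
    simpa using hn
  have hinj : Function.Injective (fun (c : Fin r → V) => fun i => e (c i)) := by
    intro c c' hcc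
    funext i
    exact e.injective (congrFun hcc i)
  have key : NonRed P (I.image (fun (c : Fin r → V) => fun i => e (c i))) := by
    intro c hc
    obtain ⟨d, hd, rfl⟩ := Finset.mem_image.1 hc
    obtain ⟨σ, h1, h2⟩ := h d hd
    have hval : ∀ v : V, (fun x : Fin n => if hx : ∃ v, e v = x then σ hx.choose else false) (e v)
        = σ v := by
      intro v
      have hx : ∃ w, e w = e v := ⟨v, rfl⟩
      simp only [hx, dite_true]
      rw [e.injective hx.choose_spec]
    refine ⟨fun x => if hx : ∃ v, e v = x then σ hx.choose else false, ?_, ?_⟩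
    · intro c' hc' hne
      obtain ⟨d', hd', rfl⟩ := Finset.mem_image.1 hc'
      have : d' ≠ d := by
        rintro rfl
        exact hne rfl
      have := h1 d' hd' this
      unfold Sat at this ⊢
      simpa only [hval] using this
    · intro hs
      apply h2
      unfold Sat at hs ⊢
      simpa only [hval] using hs
  have := le_nrd key
  rwa [Finset.card_image_of_injective _ hinj] at this

end Q229.NR
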