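import Pool.Agent.Q229.NR.Count
import Pool.Agent.Q229.NR.Defs

/-!
# The upper bound for the predicate
-/

set_option autoImplicit false

namespace Q229.NR

open Module Submodule Classical

/-- a Boolean value as an element of the field with two elements -/
def bz (x : Bool) : ZMod 2 := if x then 1 else 0

theorem bz_xor : ∀ x y : Bool, bz (xor x y) = bz x + bz y := by decide

theorem bz_inj : ∀ x y : Bool, bz x = bz y → x = y := by decide

/-- the submodule of assignments satisfying all linear equations -/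
def Z {V J : Type} (cl : J → Fin 6 → V) : Submodule (ZMod 2) (V → ZMod 2) where
  carrier := {ψ | Lin cl ψ}
  add_mem' := by
    intro x y hx hy j
    obtain ⟨h1, h2, h3⟩ := hx j
    obtain ⟨h4, h5, h6⟩ := hy j
    simp only [Pi.add_apply]
    rw [h1, h2, h3, h4, h5, h6]
    refine ⟨by ring, by ring, by ring⟩
  zero_mem' := by
    intro j
    simp
  smul_mem' := by
    intro r x hx j
    obtain ⟨h1, h2, h3⟩ := hx j
    simp only [Pi.smul_apply, smul_eq_mul]
    rw [h1, h2, h3]
    refine ⟨by ring, by ring, by ring⟩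

theorem D_top {V J : Type} [Fintype V] [Fintype J] (cl : J → Fin 6 → V)
    (Ψ : J → V → ZMod 2) (hZ : ∀ i, Lin cl (Ψ i))
    (h0 : ∀ i, Ψ i (cl i 0) = 0 ∧ Ψ i (cl i 1) = 0 ∧ Ψ i (cl i 2) = 0)
    (h1 : ∀ i j, j ≠ i → Ψ i (cl j 0) = 1 ∨ Ψ i (cl j 1) = 1 ∨ Ψ i (cl j 2) = 1) :
    D cl (Z cl) = Fintype.card J := by
  have hF : ∀ i, F cl (Ψ i) = Pi.single i 1 := by
    intro i
    funext j
    by_cases h : j = i
    · subst h
      obtain ⟨a, b, c⟩ := h0 j
      simp only [F, a, b, c, Pi.single_eq_same]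
      decide
    · rw [Pi.single_eq_of_ne h]
      have e : (1 + 1 : ZMod 2) = 0 := by decide
      rcases h1 i j h with a | a | a
      · simp only [F, a, e, zero_mul]
      · simp only [F, a, e, zero_mul, mul_zero]
      · simp only [F, a, e, mul_zero]
  have htop : span (ZMod 2) (F cl '' (Z cl : Set (V → ZMod 2))) = ⊤ := by
    rw [eq_top_iff, ← (Pi.basisFun (ZMod 2) J).span_eq]
    refine span_le.2 ?_
    rintro _ ⟨i, rfl⟩
    rw [Pi.basisFun_apply, ← hF i]
    exact subset_span ⟨_, hZ i, rfl⟩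
  unfold D
  rw [htop, finrank_top, Module.finrank_fintype_fun_eq_card]

/-- clauses whose witnesses violate a linear equation are few -/
theorem lin_indep_bound {V J : Type} [Fintype V] [Fintype J] (Ψ : J → V → ZMod 2)
    (L : J → (V → ZMod 2) →ₗ[ZMod 2] ZMod 2) (h1 : ∀ j, L j (Ψ j) = 1)
    (h0 : ∀ i j, i ≠ j → L j (Ψ i) = 0) : Fintype.card J ≤ Fintype.card V := by
  have hli : LinearIndependent (ZMod 2) Ψ := by
    rw [Fintype.linearIndependent_iff]
    intro g hg j
    have := congrArg (L j) hg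
    rw [map_sum, map_zero] at this
    rw [Finset.sum_eq_single j] at this
    · rw [map_smul, h1, smul_eq_mul, mul_one] at this
      exact this
    · intro i _ hij
      rw [map_smul, h0 i j hij, smul_zero]
    · intro h
      exact absurd (Finset.mem_univ j) h
  have := hli.fintype_card_le_finrank
  rwa [Module.finrank_fintype_fun_eq_card] at this

/-- the functional `ψ x + ψ y + ψ z` -/
def tri {V : Type} (x y z : V) : (V → ZMod 2) →ₗ[ZMod 2] ZMod 2 where
  toFun ψ := ψ x + ψ y + ψ z
  map_add' m m' := by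
    simp only [Pi.add_apply]
    ring
  map_smul' r m := by
    simp only [Pi.smul_apply, smul_eq_mul, RingHom.id_apply]
    ring

theorem tri_apply {V : Type} (x y z : V) (ψ : V → ZMod 2) :
    tri x y z ψ = ψ x + ψ y + ψ z := rfl

theorem upper {V : Type} [Fintype V] (I : Finset (Fin 6 → V)) (hI : NonRed P6 I) (s : ℕ)
    (hs : 1 ≤ s) (hn : Fintype.card V ≤ s * s) :
    I.card ≤ 4 * Fintype.card V * s + s + 4 * Fintype.card V + 1 := by
  choose! σ hσ1 hσ2 using hI
  let good : (Fin 6 → V) → Prop := fun c =>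
    σ c (c 3) = xor (σ c (c 0)) (σ c (c 1)) ∧ σ c (c 4) = xor (σ c (c 1)) (σ c (c 2)) ∧
      σ c (c 5) = xor (σ c (c 0)) (σ c (c 2))
  have hbad : (I.filter (fun c => ¬ good c)).card ≤ Fintype.card V := by
    have key := lin_indep_bound (J := {c // c ∈ I.filter (fun c => ¬ good c)})
      (fun j v => bz (σ j.1 v))
      (fun j => if σ j.1 (j.1 3) ≠ xor (σ j.1 (j.1 0)) (σ j.1 (j.1 1)) then
        tri (j.1 3) (j.1 0) (j.1 1) else
        if σ j.1 (j.1 4) ≠ xor (σ j.1 (j.1 1)) (σ j.1 (j.1 2)) then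
        tri (j.1 4) (j.1 1) (j.1 2) else tri (j.1 5) (j.1 0) (j.1 2)) ?_ ?_
    · rwa [Fintype.card_coe] at key
    · have e : ∀ x y z : Bool, x ≠ xor y z → bz x + bz y + bz z = 1 := by decide
      intro j
      have hj := (Finset.mem_filter.1 j.2).2
      try dsimp only
      split_ifs with h1 h2
      · rw [tri_apply]; exact e _ _ _ h1
      · rw [tri_apply]; exact e _ _ _ h2
      · rw [tri_apply]
        refine e _ _ _ ?_
        intro h3
        apply hj
        push Not at h1 h2
        exact ⟨h1, h2, h3⟩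
    · have e : ∀ x y z : Bool, x = xor y z → bz x + bz y + bz z = 0 := by decide
      intro i j hij
      have hi := (Finset.mem_filter.1 i.2).1
      have hj := (Finset.mem_filter.1 j.2).1
      have hne : j.1 ≠ i.1 := fun h => hij (Subtype.ext h.symm)
      obtain ⟨a1, a2, a3, -⟩ := hσ1 i.1 hi j.1 hj hne
      dsimp only at a1 a2 a3 ⊢
      split_ifs
      · rw [tri_apply]; exact e _ _ _ a1
      · rw [tri_apply]; exact e _ _ _ a2
      · rw [tri_apply]; exact e _ _ _ a3
  have hgood : (I.filter good).card = D (fun j : {c // c ∈ I.filter good} => j.1)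
      (Z (fun j : {c // c ∈ I.filter good} => j.1)) := by
    rw [D_top (fun j : {c // c ∈ I.filter good} => j.1) (fun j v => bz (σ j.1 v)),
      Fintype.card_coe]
    · intro i j
      have hi := (Finset.mem_filter.1 i.2)
      have hj := (Finset.mem_filter.1 j.2)
      dsimp only
      by_cases h : j = i
      · subst h
        obtain ⟨a1, a2, a3⟩ := hi.2
        rw [a1, a2, a3, bz_xor, bz_xor, bz_xor]
        exact ⟨rfl, rfl, rfl⟩
      · have hne : j.1 ≠ i.1 := fun h' => h (Subtype.ext h')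
        obtain ⟨a1, a2, a3, -⟩ := hσ1 i.1 hi.1 j.1 hj.1 hne
        dsimp only at a1 a2 a3
        rw [a1, a2, a3, bz_xor, bz_xor, bz_xor]
        exact ⟨rfl, rfl, rfl⟩
    · intro i
      have hi := (Finset.mem_filter.1 i.2)
      obtain ⟨a1, a2, a3⟩ := hi.2
      have := hσ2 i.1 hi.1
      have h0 : σ i.1 (i.1 0) = false ∧ σ i.1 (i.1 1) = false ∧ σ i.1 (i.1 2) = false := by
        by_contra hcon
        exact this ⟨a1, a2, a3, hcon⟩
      obtain ⟨b1, b2, b3⟩ := h0
      try dsimp only
      rw [b1, b2, b3]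
      exact ⟨rfl, rfl, rfl⟩
    · intro i j hij
      have hi := (Finset.mem_filter.1 i.2)
      have hj := (Finset.mem_filter.1 j.2)
      have hne : j.1 ≠ i.1 := fun h' => hij (Subtype.ext h')
      obtain ⟨-, -, -, h4⟩ := hσ1 i.1 hi.1 j.1 hj.1 hne
      dsimp only at h4 ⊢
      have e : ∀ x y z : Bool, ¬ (x = false ∧ y = false ∧ z = false) →
        bz x = 1 ∨ bz y = 1 ∨ bz z = 1 := by decide
      exact e _ _ _ h4
  have hsplit : I.card = (I.filter good).card + (I.filter (fun c => ¬ good c)).card :=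
    (Finset.card_filter_add_card_filter_not _).symm
  have hm := main_bound (fun j : {c // c ∈ I.filter good} => j.1) s hs _
    (Z (fun j : {c // c ∈ I.filter good} => j.1)) (fun ψ hψ => hψ) rfl
  rw [← hgood] at hm
  have hR := card_R_le (Z (fun j : {c // c ∈ I.filter good} => j.1))
  set N := Fintype.card V
  set ρ := (R (Z (fun j : {c // c ∈ I.filter good} => j.1))).card
  set G := (I.filter good).card
  have h1 : s * G ≤ s * (s * (2 * N + 1) + (2 * N + 1 + N * (2 * s + 1))) := by
    have h2 : ρ * (2 * N + 1) ≤ s * s * (2 * N + 1) :=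
      Nat.mul_le_mul_right _ (hR.trans hn)
    have h3 : s * (2 * N + 1 + ρ * (2 * s + 1)) ≤ s * (2 * N + 1 + N * (2 * s + 1)) := by
      gcongr
    calc s * G ≤ _ := hm
      _ ≤ s * s * (2 * N + 1) + s * (2 * N + 1 + N * (2 * s + 1)) := add_le_add h2 h3
      _ = _ := by ring
  have h2 : G ≤ s * (2 * N + 1) + (2 * N + 1 + N * (2 * s + 1)) :=
    Nat.le_of_mul_le_mul_left h1 hs
  rw [hsplit]
  have h3 : s * (2 * N + 1) + (2 * N + 1 + N * (2 * s + 1)) =
    4 * N * s + s + 3 * N + 1 := by ring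
  omega

end Q229.NR
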