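import Mathlib

/-!
# Identities over the field with two elements
-/

set_option autoImplicit false

namespace Q229.NR

/-- polarisation of the difference of the cubic along `φ = (α, β, γ)` -/
theorem ident_contract : ∀ a b c a' b' c' α β γ : ZMod 2,
    ((1 + (a + a')) * (1 + (b + b')) * (1 + (c + c')) +
        (1 + (a + a' + α)) * (1 + (b + b' + β)) * (1 + (c + c' + γ))) -
      ((1 + a) * (1 + b) * (1 + c) + (1 + (a + α)) * (1 + (b + β)) * (1 + (c + γ))) -
      ((1 + a') * (1 + b') * (1 + c') + (1 + (a' + α)) * (1 + (b' + β)) * (1 + (c' + γ))) =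
    (α * (b * b' + c * c' + (b + c) * (b' + c')) + β * (a * a' + c * c' + (a + c) * (a' + c')) +
        γ * (a * a' + b * b' + (a + b) * (a' + b'))) +
      (1 + (1 + α) * (1 + β) * (1 + γ)) := by
  decide +kernel

/-- polarisation of the cubic itself on the tetrahedron -/
theorem ident_cube : ∀ a b c a' b' c' : ZMod 2,
    (1 + (a + a')) * (1 + (b + b')) * (1 + (c + c')) - (1 + a) * (1 + b) * (1 + c) -
      (1 + a') * (1 + b') * (1 + c') =
    1 + (a * a' + c * c' + (a + b) * (a' + b') + (b + c) * (b' + c')) +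
      (((a' + b') * (b + c)) * (a' * (a + c)) + (b' * (b + c)) * (a' * (a + b))) +
      (((a + b) * (b' + c') + (a + b) * (b + c) * (b' + c') + (a + b) * (a' + b') * (b' + c')) +
       (b * (b' + c') + b * (b + c) * (b' + c') + b * b' * (b' + c')) +
       (a * (a' + c') + a * (a + c) * (a' + c') + a * a' * (a' + c')) +
       (a * (a' + b') + a * (a + b) * (a' + b') + a * a' * (a' + b'))) := by
  decide +kernel

/-- the second cup product is a cocycle -/
theorem ident_cocycle : ∀ a b c a' b' : ZMod 2,
    (a' + b') * (b + c) + b' * (b + c) + a' * (a + c) + a' * (a + b) = 0 := by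
  decide +kernel

/-- polarisation of the Bockstein form on even quadruples -/
theorem ident_half : ∀ x1 x2 x3 x4 y1 y2 y3 y4 : ZMod 2, x1 + x2 + x3 + x4 = 0 →
    y1 + y2 + y3 + y4 = 0 →
    ((x1 + y1) * (x3 + y3) + (x2 + y2) * (x4 + y4)) - (x1 * x3 + x2 * x4) -
      (y1 * y3 + y2 * y4) = x1 * y1 + x2 * y2 + x3 * y3 + x4 * y4 := by
  decide +kernel

end Q229.NR
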