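import Mathlib

/-!
# Polarisation over the field with two elements
-/

set_option autoImplicit false

namespace Q229.NR

open Module Submodule

/-- a map whose polarisation lies in `S` spans at most `dim X` dimensions modulo `S` -/
theorem polar {X M : Type} [AddCommGroup X] [Module (ZMod 2) X] [AddCommGroup M]
    [Module (ZMod 2) M] [FiniteDimensional (ZMod 2) X] [FiniteDimensional (ZMod 2) M]
    (w : X → M) (S : Submodule (ZMod 2) M) (h : ∀ x y, w (x + y) - w x - w y ∈ S) :
    finrank (ZMod 2) ↥(span (ZMod 2) (Set.range w) ⊔ S) ≤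
      finrank (ZMod 2) X + finrank (ZMod 2) S := by
  have h0 : w 0 ∈ S := by
    have := h 0 0
    rw [add_zero, sub_self, zero_sub] at this
    exact (Submodule.neg_mem_iff S).1 this
  let f : X →+ M ⧸ S :=
    { toFun := fun x => S.mkQ (w x)
      map_zero' := by
        rw [Submodule.mkQ_apply, Submodule.Quotient.mk_eq_zero]
        exact h0
      map_add' := by
        intro x y
        rw [← map_add, ← sub_eq_zero, ← map_sub, Submodule.mkQ_apply,
          Submodule.Quotient.mk_eq_zero]
        have := h x y
        rwa [sub_sub] at this }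
  let g : X →ₗ[ZMod 2] M ⧸ S := f.toZModLinearMap 2
  obtain ⟨g', hg'⟩ := Module.projective_lifting_property S.mkQ g S.mkQ_surjective
  have hmem : ∀ x, w x - g' x ∈ S := by
    intro x
    rw [← Submodule.Quotient.mk_eq_zero, ← Submodule.mkQ_apply, map_sub]
    have : S.mkQ (g' x) = g x := by
      rw [← hg']; rfl
    rw [this]
    exact sub_self _
  have hle : span (ZMod 2) (Set.range w) ⊔ S ≤ LinearMap.range g' ⊔ S := by
    refine sup_le (span_le.2 ?_) le_sup_right
    rintro _ ⟨x, rfl⟩
    have : w x = g' x + (w x - g' x) := by abel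
    rw [this]
    exact Submodule.add_mem_sup ⟨x, rfl⟩ (hmem x)
  calc finrank (ZMod 2) ↥(span (ZMod 2) (Set.range w) ⊔ S)
      ≤ finrank (ZMod 2) ↥(LinearMap.range g' ⊔ S) := Submodule.finrank_mono hle
    _ ≤ finrank (ZMod 2) ↥(LinearMap.range g') + finrank (ZMod 2) S :=
        Submodule.finrank_add_le_finrank_add_finrank _ _
    _ ≤ finrank (ZMod 2) X + finrank (ZMod 2) S := by
        gcongr
        exact LinearMap.finrank_range_le g'

theorem finrank_span_one {M : Type} [AddCommGroup M] [Module (ZMod 2) M] (x : M) :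
    finrank (ZMod 2) ↥(span (ZMod 2) {x}) ≤ 1 := by
  exact (finrank_span_le_card ({x} : Set M)).trans (by simp)

end Q229.NR
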