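import Pool.Agent.Q229.NR.Ident
import Pool.Agent.Q229.NR.Polar

/-!
# The upper bound: contraction and the final stage
-/

set_option autoImplicit false

namespace Q229.NR

open Module Submodule

variable {V J K : Type} [Fintype V] [Fintype J] [Fintype K]

/-- the cubic form evaluated on all clauses -/
def F (cl : J → Fin 6 → V) (ψ : V → ZMod 2) : J → ZMod 2 := fun j =>
  (1 + ψ (cl j 0)) * (1 + ψ (cl j 1)) * (1 + ψ (cl j 2))

/-- the linear equations -/
def Lin (cl : J → Fin 6 → V) (ψ : V → ZMod 2) : Prop := ∀ j,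
  ψ (cl j 3) = ψ (cl j 0) + ψ (cl j 1) ∧ ψ (cl j 4) = ψ (cl j 1) + ψ (cl j 2) ∧
    ψ (cl j 5) = ψ (cl j 0) + ψ (cl j 2)

/-- the dimension of the span of the values of the cubic form on `W` -/
noncomputable def D (cl : J → Fin 6 → V) (W : Submodule (ZMod 2) (V → ZMod 2)) : ℕ :=
  finrank (ZMod 2) ↥(span (ZMod 2) (F cl '' (W : Set (V → ZMod 2))))

/-- the assignments of `W` that vanish at `v` -/
def cut (W : Submodule (ZMod 2) (V → ZMod 2)) (v : V) : Submodule (ZMod 2) (V → ZMod 2) :=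
  W ⊓ LinearMap.ker (LinearMap.proj v : (V → ZMod 2) →ₗ[ZMod 2] ZMod 2)

theorem mem_cut {W : Submodule (ZMod 2) (V → ZMod 2)} {v : V} {ψ : V → ZMod 2} :
    ψ ∈ cut W v ↔ ψ ∈ W ∧ ψ v = 0 := by
  unfold cut
  rw [Submodule.mem_inf, LinearMap.mem_ker, LinearMap.proj_apply]

theorem finrank_sub_le (W : Submodule (ZMod 2) (V → ZMod 2)) :
    finrank (ZMod 2) W ≤ Fintype.card V := by
  have := Submodule.finrank_le W
  rwa [Module.finrank_fintype_fun_eq_card] at this

/-- the linear map used in the contraction step -/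
def mapC (cl : J → Fin 6 → V) (φ : V → ZMod 2) : (V → ZMod 2) →ₗ[ZMod 2] (J → ZMod 2) where
  toFun m := fun j => φ (cl j 0) * (m (cl j 1) + m (cl j 2) + m (cl j 4)) +
    φ (cl j 1) * (m (cl j 0) + m (cl j 2) + m (cl j 5)) +
    φ (cl j 2) * (m (cl j 0) + m (cl j 1) + m (cl j 3))
  map_add' m m' := by
    funext j
    simp only [Pi.add_apply]
    ring
  map_smul' r m := by
    funext j
    simp only [Pi.smul_apply, smul_eq_mul, RingHom.id_apply]
    ring

/-- the linear map used in the final stage -/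
def mapE (cl : J → Fin 6 → V) : (V → ZMod 2) →ₗ[ZMod 2] (J → ZMod 2) where
  toFun m := fun j => m (cl j 0) + m (cl j 2) + m (cl j 3) + m (cl j 4)
  map_add' m m' := by
    funext j
    simp only [Pi.add_apply]
    ring
  map_smul' r m := by
    funext j
    simp only [Pi.smul_apply, smul_eq_mul, RingHom.id_apply]
    ring

theorem finrank_range_le_card {A : Type} [Fintype A] (f : (A → ZMod 2) →ₗ[ZMod 2] (J → ZMod 2)) :
    finrank (ZMod 2) ↥(LinearMap.range f) ≤ Fintype.card A := by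
  have := LinearMap.finrank_range_le f
  rwa [Module.finrank_fintype_fun_eq_card] at this

theorem contract (cl : J → Fin 6 → V) (W : Submodule (ZMod 2) (V → ZMod 2))
    (hW : ∀ ψ ∈ W, Lin cl ψ) (v : V) (φ : V → ZMod 2) (hφ : φ ∈ W) (hv : φ v = 1) :
    D cl W ≤ D cl (cut W v) + (2 * Fintype.card V + 1) := by
  classical
  let w : W → (J → ZMod 2) := fun ψ => F cl ψ.1 + F cl (ψ.1 + φ)
  let S : Submodule (ZMod 2) (J → ZMod 2) :=
    LinearMap.range (mapC cl φ) ⊔ span (ZMod 2) {w 0}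
  have hpol : ∀ x y : W, w (x + y) - w x - w y ∈ S := by
    intro x y
    have : w (x + y) - w x - w y = mapC cl φ (x.1 * y.1) + w 0 := by
      funext j
      obtain ⟨h1, h2, h3⟩ := hW x.1 x.2 j
      obtain ⟨h4, h5, h6⟩ := hW y.1 y.2 j
      have := ident_contract (x.1 (cl j 0)) (x.1 (cl j 1)) (x.1 (cl j 2)) (y.1 (cl j 0))
        (y.1 (cl j 1)) (y.1 (cl j 2)) (φ (cl j 0)) (φ (cl j 1)) (φ (cl j 2))
      simp only [w, F, mapC, Pi.add_apply, Pi.sub_apply, Submodule.coe_add, LinearMap.coe_mk,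
        AddHom.coe_mk, Pi.mul_apply, h1, h2, h3, h4, h5, h6, ZeroMemClass.coe_zero,
        Pi.zero_apply, add_zero, zero_add, mul_one]
      exact this
    rw [this]
    exact Submodule.add_mem_sup ⟨_, rfl⟩ (Submodule.subset_span rfl)
  have h1 := polar w S hpol
  have hS : finrank (ZMod 2) S ≤ Fintype.card V + 1 := by
    refine (Submodule.finrank_add_le_finrank_add_finrank _ _).trans ?_
    exact add_le_add (finrank_range_le_card _) (finrank_span_one _)
  have hk := finrank_sub_le W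
  have hle : span (ZMod 2) (F cl '' (W : Set (V → ZMod 2))) ≤
      span (ZMod 2) (F cl '' (cut W v : Set (V → ZMod 2))) ⊔
        (span (ZMod 2) (Set.range w) ⊔ S) := by
    refine span_le.2 ?_
    rintro _ ⟨ψ, hψ, rfl⟩
    by_cases h0 : ψ v = 0
    · refine Submodule.mem_sup_left (Submodule.subset_span ⟨ψ, ?_, rfl⟩)
      exact mem_cut.2 ⟨hψ, h0⟩
    · have h1 : ψ v = 1 := by
        have : ∀ x : ZMod 2, x ≠ 0 → x = 1 := by decide
        exact this _ h0
      have e : F cl ψ = F cl (ψ + φ) + w ⟨ψ, hψ⟩ := by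
        simp only [w]
        have : ∀ x y : J → ZMod 2, x = y + (x + y) := by
          intro x y
          funext j
          have : ∀ a b : ZMod 2, a = b + (a + b) := by decide
          exact this _ _
        exact this _ _
      rw [e]
      refine Submodule.add_mem_sup (Submodule.subset_span ⟨ψ + φ, ?_, rfl⟩)
        (Submodule.mem_sup_left (Submodule.subset_span ⟨_, rfl⟩))
      refine mem_cut.2 ⟨W.add_mem hψ hφ, ?_⟩
      rw [Pi.add_apply, h1, hv]
      decide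
  unfold D
  have h2 := Submodule.finrank_mono hle
  have h3 := Submodule.finrank_add_le_finrank_add_finrank
    (span (ZMod 2) (F cl '' (cut W v : Set (V → ZMod 2)))) (span (ZMod 2) (Set.range w) ⊔ S)
  omega

/-- the coboundary -/
def cob (f1 f2 f3 f4 : J → K) : (K → ZMod 2) →ₗ[ZMod 2] (J → ZMod 2) where
  toFun g := fun j => g (f1 j) + g (f2 j) + g (f3 j) + g (f4 j)
  map_add' m m' := by
    funext j
    simp only [Pi.add_apply]
    ring
  map_smul' r m := by
    funext j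
    simp only [Pi.smul_apply, smul_eq_mul, RingHom.id_apply]
    ring

/-- the Bockstein form of a cocycle -/
def bock (f1 f2 f3 f4 : J → K) (g : LinearMap.ker (cob f1 f2 f3 f4)) : J → ZMod 2 :=
  fun j => g.1 (f1 j) * g.1 (f3 j) + g.1 (f2 j) * g.1 (f4 j)

theorem bock_span (f1 f2 f3 f4 : J → K) :
    finrank (ZMod 2) ↥(span (ZMod 2) (Set.range (bock f1 f2 f3 f4)) ⊔
      LinearMap.range (cob f1 f2 f3 f4)) ≤ Fintype.card K := by
  have h1 := polar (bock f1 f2 f3 f4) (LinearMap.range (cob f1 f2 f3 f4)) (by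
    intro x y
    refine ⟨x.1 * y.1, ?_⟩
    funext j
    have hx : cob f1 f2 f3 f4 x.1 j = 0 := by
      rw [LinearMap.mem_ker.1 x.2]; rfl
    have hy : cob f1 f2 f3 f4 y.1 j = 0 := by
      rw [LinearMap.mem_ker.1 y.2]; rfl
    have := ident_half _ _ _ _ _ _ _ _ hx hy
    simp only [bock, Pi.sub_apply, Submodule.coe_add, Pi.add_apply]
    exact this.symm)
  have h2 := LinearMap.finrank_range_add_finrank_ker (cob f1 f2 f3 f4)
  rw [Module.finrank_fintype_fun_eq_card] at h2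
  omega

theorem cube (cl : J → Fin 6 → V) (W : Submodule (ZMod 2) (V → ZMod 2))
    (hW : ∀ ψ ∈ W, Lin cl ψ) (p q : K → (V → ZMod 2) → ZMod 2) (f1 f2 f3 f4 : J → K)
    (h1 : ∀ ψ ∈ W, ∀ j, p (f1 j) ψ = ψ (cl j 3) ∧ q (f1 j) ψ = ψ (cl j 4))
    (h2 : ∀ ψ ∈ W, ∀ j, p (f2 j) ψ = ψ (cl j 1) ∧ q (f2 j) ψ = ψ (cl j 4))
    (h3 : ∀ ψ ∈ W, ∀ j, p (f3 j) ψ = ψ (cl j 0) ∧ q (f3 j) ψ = ψ (cl j 5))
    (h4 : ∀ ψ ∈ W, ∀ j, p (f4 j) ψ = ψ (cl j 0) ∧ q (f4 j) ψ = ψ (cl j 3)) :
    D cl W ≤ 2 * Fintype.card V + 1 + Fintype.card K := by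
  classical
  let w : W → (J → ZMod 2) := fun ψ => F cl ψ.1
  let B : Submodule (ZMod 2) (J → ZMod 2) :=
    span (ZMod 2) (Set.range (bock f1 f2 f3 f4)) ⊔ LinearMap.range (cob f1 f2 f3 f4)
  let S : Submodule (ZMod 2) (J → ZMod 2) :=
    (span (ZMod 2) {(fun _ => 1 : J → ZMod 2)} ⊔ LinearMap.range (mapE cl)) ⊔ B
  have hpol : ∀ x y : W, w (x + y) - w x - w y ∈ S := by
    intro x y
    let l2 : K → ZMod 2 := fun k => p k y.1 * q k x.1
    let l3 : K → ZMod 2 := fun k => p k x.1 * q k y.1 + p k x.1 * q k x.1 * q k y.1 +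
      p k x.1 * p k y.1 * q k y.1
    have hl2 : l2 ∈ LinearMap.ker (cob f1 f2 f3 f4) := by
      rw [LinearMap.mem_ker]
      funext j
      obtain ⟨e1, e2, e3⟩ := hW x.1 x.2 j
      obtain ⟨e4, e5, e6⟩ := hW y.1 y.2 j
      have := ident_cocycle (x.1 (cl j 0)) (x.1 (cl j 1)) (x.1 (cl j 2)) (y.1 (cl j 0))
        (y.1 (cl j 1))
      simp only [cob, l2, LinearMap.coe_mk, AddHom.coe_mk, (h1 y.1 y.2 j).1, (h1 x.1 x.2 j).2,
        (h2 y.1 y.2 j).1, (h2 x.1 x.2 j).2, (h3 y.1 y.2 j).1, (h3 x.1 x.2 j).2,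
        (h4 y.1 y.2 j).1, (h4 x.1 x.2 j).2, e1, e2, e3, e4, e5, e6, Pi.zero_apply]
      exact this
    have : w (x + y) - w x - w y = ((fun _ => 1 : J → ZMod 2) + mapE cl (x.1 * y.1)) +
        (bock f1 f2 f3 f4 ⟨l2, hl2⟩ + cob f1 f2 f3 f4 l3) := by
      funext j
      obtain ⟨e1, e2, e3⟩ := hW x.1 x.2 j
      obtain ⟨e4, e5, e6⟩ := hW y.1 y.2 j
      have := ident_cube (x.1 (cl j 0)) (x.1 (cl j 1)) (x.1 (cl j 2)) (y.1 (cl j 0))
        (y.1 (cl j 1)) (y.1 (cl j 2))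
      simp only [w, F, mapE, bock, cob, l2, l3, Pi.add_apply, Pi.sub_apply, Submodule.coe_add,
        LinearMap.coe_mk, AddHom.coe_mk, Pi.mul_apply,
        (h1 y.1 y.2 j).1, (h1 x.1 x.2 j).2,
        (h2 y.1 y.2 j).1, (h2 x.1 x.2 j).2, (h3 y.1 y.2 j).1, (h3 x.1 x.2 j).2,
        (h4 y.1 y.2 j).1, (h4 x.1 x.2 j).2, (h1 y.1 y.2 j).2, (h1 x.1 x.2 j).1,
        (h2 y.1 y.2 j).2, (h2 x.1 x.2 j).1, (h3 y.1 y.2 j).2, (h3 x.1 x.2 j).1,
        (h4 y.1 y.2 j).2, (h4 x.1 x.2 j).1, e1, e2, e3, e4, e5, e6]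
      rw [this]
      ring
    rw [this]
    refine Submodule.add_mem_sup (Submodule.add_mem_sup (Submodule.subset_span rfl) ⟨_, rfl⟩)
      (Submodule.add_mem_sup (Submodule.subset_span ⟨_, rfl⟩) ⟨_, rfl⟩)
  have h5 := polar w S hpol
  have hS : finrank (ZMod 2) S ≤ 1 + Fintype.card V + Fintype.card K := by
    refine (Submodule.finrank_add_le_finrank_add_finrank _ _).trans ?_
    refine add_le_add ?_ (bock_span f1 f2 f3 f4)
    refine (Submodule.finrank_add_le_finrank_add_finrank _ _).trans ?_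
    exact add_le_add (finrank_span_one _) (finrank_range_le_card _)
  have hk := finrank_sub_le W
  have hle : span (ZMod 2) (F cl '' (W : Set (V → ZMod 2))) ≤
        (span (ZMod 2) (Set.range w) ⊔ S) := by
    refine span_le.2 ?_
    rintro _ ⟨ψ, hψ, rfl⟩
    exact Submodule.mem_sup_left (Submodule.subset_span ⟨⟨ψ, hψ⟩, rfl⟩)
  unfold D
  have h6 := Submodule.finrank_mono hle
  omega

end Q229.NR
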